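import Mathlib

/-!
# Strict monotonicity of the optimal coherence in the dimension

For `N ≥ 2` and `1 ≤ M ≤ N - 1` the optimal coherence satisfies `μ(N, M + 1) < μ(N, M)`.
Given an optimal sequence `f_1, …, f_N` in `ℝ^M` with coherence `μ > 0`, the unit vectors
`√(1 - a_i²) f_i + a_i e` of `ℝ^(M+1)`, with a new unit vector `e` and `a_i = (μ/4)^i`, have a
strictly smaller coherence: since the `a_i` decrease so fast,
`|⟨f_i', f_j'⟩| ≤ (1 - a_i²/2) μ + a_i a_j < μ` for `i < j`.
-/

set_option autoImplicit false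

namespace Pool.Agent.Results.MP_9149b8_co.StrictDecrease

/-- The worst-case coherence of a sequence `F` of `N` vectors of `ℝ^M`: the largest absolute inner
product of two vectors with different indices. -/
noncomputable def coherence {N M : ℕ} (F : Fin N → EuclideanSpace ℝ (Fin M)) : ℝ :=
  ⨆ p : {p : Fin N × Fin N // p.1 ≠ p.2}, |inner ℝ (F p.1.1) (F p.1.2)|

/-- The set of the coherences of all sequences of `N` unit vectors of `ℝ^M`. -/
def coherences (N M : ℕ) : Set ℝ :=
  {t | ∃ F : Fin N → EuclideanSpace ℝ (Fin M), (∀ i, ‖F i‖ = 1) ∧ coherence F = t}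

/-- The optimal coherence `μ(N, M)`. -/
noncomputable def mu (N M : ℕ) : ℝ := sInf (coherences N M)

lemma nonempty_pairs {N : ℕ} (hN : 2 ≤ N) : Nonempty {p : Fin N × Fin N // p.1 ≠ p.2} :=
  ⟨⟨(⟨0, by omega⟩, ⟨1, by omega⟩), by simp⟩⟩

lemma le_coherence {N M : ℕ} (F : Fin N → EuclideanSpace ℝ (Fin M)) {i j : Fin N} (h : i ≠ j) :
    |inner ℝ (F i) (F j)| ≤ coherence F :=
  le_ciSup (f := fun p : {p : Fin N × Fin N // p.1 ≠ p.2} => |inner ℝ (F p.1.1) (F p.1.2)|)
    (Set.finite_range _).bddAbove ⟨(i, j), h⟩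

lemma coherence_lt {N M : ℕ} (hN : 2 ≤ N) (F : Fin N → EuclideanSpace ℝ (Fin M)) {c : ℝ}
    (h : ∀ i j : Fin N, i ≠ j → |inner ℝ (F i) (F j)| < c) : coherence F < c := by
  haveI := nonempty_pairs hN
  obtain ⟨p, hp⟩ := exists_eq_ciSup_of_finite
    (f := fun p : {p : Fin N × Fin N // p.1 ≠ p.2} => |inner ℝ (F p.1.1) (F p.1.2)|)
  unfold coherence
  rw [← hp]
  exact h _ _ p.2

lemma coherence_nonneg {N M : ℕ} (F : Fin N → EuclideanSpace ℝ (Fin M)) : 0 ≤ coherence F :=
  Real.iSup_nonneg fun _ => abs_nonneg _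

lemma continuous_coherence (N M : ℕ) :
    Continuous (fun F : Fin N → EuclideanSpace ℝ (Fin M) => coherence F) := by
  classical
  by_cases hne : Nonempty {p : Fin N × Fin N // p.1 ≠ p.2}
  · have : (fun F : Fin N → EuclideanSpace ℝ (Fin M) => coherence F) =
        fun F => (Finset.univ : Finset {p : Fin N × Fin N // p.1 ≠ p.2}).sup'
          Finset.univ_nonempty (fun p => |inner ℝ (F p.1.1) (F p.1.2)|) := by
      funext F
      unfold coherence
      rw [Finset.sup'_univ_eq_ciSup]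
    rw [this]
    exact Continuous.finset_sup'_apply _ fun p _ =>
      ((continuous_apply p.1.1).inner (continuous_apply p.1.2)).abs
  · have hE : IsEmpty {p : Fin N × Fin N // p.1 ≠ p.2} := not_nonempty_iff.1 hne
    have : (fun F : Fin N → EuclideanSpace ℝ (Fin M) => coherence F) = fun _ => 0 := by
      funext F
      unfold coherence
      exact Real.iSup_of_isEmpty _
    rw [this]
    exact continuous_const

/-- The minimum is attained. -/
lemma exists_opt (N M : ℕ) (hM : 1 ≤ M) : ∃ F : Fin N → EuclideanSpace ℝ (Fin M),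
    (∀ i, ‖F i‖ = 1) ∧ coherence F = mu N M ∧ IsLeast (coherences N M) (mu N M) := by
  let S : Set (Fin N → EuclideanSpace ℝ (Fin M)) :=
    Set.univ.pi fun _ => Metric.sphere (0 : EuclideanSpace ℝ (Fin M)) 1
  have hS : IsCompact S := isCompact_univ_pi fun _ => isCompact_sphere _ _
  have hne : S.Nonempty := by
    refine ⟨fun _ => EuclideanSpace.single ⟨0, by omega⟩ 1, ?_⟩
    intro i _
    simp
  obtain ⟨F, hF, hmin⟩ := hS.exists_isMinOn hne (continuous_coherence N M).continuousOn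
  have hF1 : ∀ i, ‖F i‖ = 1 := fun i => by simpa using hF i (Set.mem_univ i)
  have hleast : IsLeast (coherences N M) (coherence F) := by
    refine ⟨⟨F, hF1, rfl⟩, ?_⟩
    rintro t ⟨G, hG, rfl⟩
    exact hmin (fun i _ => by simpa using hG i)
  have hmu : mu N M = coherence F := hleast.csInf_eq
  exact ⟨F, hF1, hmu.symm, hmu ▸ hleast⟩

/-- `N > M` unit vectors of `ℝ^M` are not pairwise orthogonal. -/
lemma mu_pos {N M : ℕ} (hM : 1 ≤ M) (h : M < N) : 0 < mu N M := by
  obtain ⟨F, hF, hFm, -⟩ := exists_opt N M hM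
  rw [← hFm]
  refine lt_of_le_of_ne (coherence_nonneg F) fun h0 => ?_
  have hor : Orthonormal ℝ F := by
    refine ⟨hF, fun i j hij => ?_⟩
    have := le_coherence F hij
    rw [← h0] at this
    exact abs_nonpos_iff.1 this
  have := hor.linearIndependent.fintype_card_le_finrank
  simp at this
  omega

/-- The lifted vector `√(1 - a²) x + a e`. -/
noncomputable def lift {M : ℕ} (a : ℝ) (x : EuclideanSpace ℝ (Fin M)) :
    EuclideanSpace ℝ (Fin (M + 1)) :=
  WithLp.toLp 2 (Fin.cons a (fun k => √(1 - a ^ 2) * x k))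

lemma inner_lift {M : ℕ} (a b : ℝ) (x y : EuclideanSpace ℝ (Fin M)) :
    inner ℝ (lift a x) (lift b y) = a * b + √(1 - a ^ 2) * √(1 - b ^ 2) * inner ℝ x y := by
  simp only [PiLp.inner_apply, lift, Fin.sum_univ_succ, Fin.cons_zero, Fin.cons_succ,
    RCLike.inner_apply, conj_trivial]
  rw [Finset.mul_sum]
  congr 1
  · ring
  · exact Finset.sum_congr rfl fun k _ => by ring

lemma norm_lift {M : ℕ} {a : ℝ} (ha : a ^ 2 ≤ 1) {x : EuclideanSpace ℝ (Fin M)} (hx : ‖x‖ = 1) :
    ‖lift a x‖ = 1 := by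
  have h : ‖lift a x‖ ^ 2 = 1 := by
    rw [← real_inner_self_eq_norm_sq, inner_lift, real_inner_self_eq_norm_sq, hx,
      Real.mul_self_sqrt (by linarith)]
    ring
  have := norm_nonneg (lift a x)
  nlinarith

lemma pair_bound {m s t a b : ℝ} (hm : 0 < m) (ht : |t| ≤ m) (hs : s = a * b + √(1 - a ^ 2) * √(1 - b ^ 2) * t)
    (ha0 : 0 < a) (ha1 : a ≤ 1) (hb0 : 0 < b) (hb1 : b ≤ 1) (hab : b ≤ m / 4 * a) : |s| < m := by
  have h1 : √(1 - a ^ 2) ≤ 1 - a ^ 2 / 2 := by
    rw [Real.sqrt_le_left (by nlinarith)]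
    nlinarith [sq_nonneg (a ^ 2)]
  have h2 : √(1 - b ^ 2) ≤ 1 := by
    rw [Real.sqrt_le_left (by norm_num)]
    nlinarith
  have h3 : |√(1 - a ^ 2) * √(1 - b ^ 2) * t| ≤ (1 - a ^ 2 / 2) * m := by
    rw [abs_mul, abs_of_nonneg (by positivity)]
    have h4 : √(1 - a ^ 2) * √(1 - b ^ 2) ≤ 1 - a ^ 2 / 2 := by
      calc √(1 - a ^ 2) * √(1 - b ^ 2) ≤ (1 - a ^ 2 / 2) * 1 :=
            mul_le_mul h1 h2 (Real.sqrt_nonneg _) (by nlinarith)
        _ = _ := mul_one _
    exact mul_le_mul h4 ht (abs_nonneg _) (by nlinarith)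
  have h5 : |s| ≤ a * b + (1 - a ^ 2 / 2) * m := by
    rw [hs]
    refine (abs_add_le _ _).trans (add_le_add ?_ h3)
    rw [abs_of_pos (by positivity)]
  have h6 : a * b ≤ a * (m / 4 * a) := mul_le_mul_of_nonneg_left hab ha0.le
  have h7 : 0 < a ^ 2 * m := by positivity
  nlinarith

/-- **Theorem.** For `N ≥ 2` and `1 ≤ M ≤ N - 1`: `μ(N, M + 1) < μ(N, M)`; moreover the infimum
in the definition of `μ(N, M)`, `M ≥ 1`, is a minimum. -/
theorem result :
    (∀ N M : ℕ, 2 ≤ N → 1 ≤ M → M ≤ N - 1 → mu N (M + 1) < mu N M) ∧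
    ∀ N M : ℕ, 2 ≤ N → 1 ≤ M → IsLeast (coherences N M) (mu N M) := by
  refine ⟨fun N M hN hM hMN => ?_, fun N M _ hM => (exists_opt N M hM).choose_spec.2.2⟩
  have hlt : M < N := by omega
  obtain ⟨F, hF, hFm, -⟩ := exists_opt N M hM
  have hm : 0 < mu N M := mu_pos hM hlt
  have hm1 : mu N M ≤ 1 := by
    rw [← hFm]
    by_contra hc
    push Not at hc
    have := coherence_lt hN F (c := coherence F) fun i j hij => by
      refine lt_of_le_of_lt (abs_real_inner_le_norm _ _) ?_
      rw [hF, hF]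
      linarith
    exact lt_irrefl _ this
  set m := mu N M with hmdef
  let a : Fin N → ℝ := fun i => (m / 4) ^ ((i : ℕ) + 1)
  have ha0 : ∀ i, 0 < a i := fun i => by positivity
  have ha1 : ∀ i, a i ≤ 1 := fun i => pow_le_one₀ (by positivity) (by linarith)
  have hab : ∀ i j : Fin N, i < j → a j ≤ m / 4 * a i := by
    intro i j hij
    have hij' : (i : ℕ) < j := hij
    have e : m / 4 * a i = (m / 4) ^ ((i : ℕ) + 1 + 1) := by
      simp only [a]; ring
    rw [e]
    exact pow_le_pow_of_le_one (by positivity) (by linarith) (by omega)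
  let G : Fin N → EuclideanSpace ℝ (Fin (M + 1)) := fun i => lift (a i) (F i)
  have hG : ∀ i, ‖G i‖ = 1 := fun i =>
    norm_lift (by nlinarith [ha0 i, ha1 i]) (hF i)
  have key : ∀ i j : Fin N, i < j → |inner ℝ (G i) (G j)| < m := by
    intro i j hij
    refine pair_bound hm ?_ (inner_lift _ _ _ _) (ha0 i) (ha1 i) (ha0 j) (ha1 j) (hab i j hij)
    rw [← hFm]
    exact le_coherence F hij.ne
  have hcoh : coherence G < m := by
    refine coherence_lt hN G fun i j hij => ?_
    rcases lt_or_gt_of_ne hij with h | h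
    · exact key i j h
    · rw [real_inner_comm]
      exact key j i h
  have hle : mu N (M + 1) ≤ coherence G := by
    refine csInf_le ⟨0, ?_⟩ ⟨G, hG, rfl⟩
    rintro t ⟨H, -, rfl⟩
    exact coherence_nonneg H
  exact lt_of_le_of_lt hle hcoh

end Pool.Agent.Results.MP_9149b8_co.StrictDecrease
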